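import Pool.Agent.Lib.P76f.Defs
import Pool.Agent.Lib.P76b.SiteCount

/-! # P76f.Count: the number of sites, and balanced assignments into a set of sites -/

open MeasureTheory Filter Topology
open scoped ENNReal NNReal BigOperators ContDiff

namespace Pool.Agent.P76f

open Pool.Agent.P76s Pool.Agent.P76b

theorem card_fcc {m : ℕ} (hm2 : 2 ∣ m) : 2 * (fcc m).card = m ^ 3 := by
  have h0 : (∑ n : Fin m, (-1 : ℤ) ^ (n : ℕ)) = 0 := by
    rw [Fin.sum_neg_one_pow, if_pos (even_iff_two_dvd.2 hm2)]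
  have h1 : (∑ c : Fin 3 → Fin m, ∏ b, (-1 : ℤ) ^ ((c b : Fin m) : ℕ)) = 0 := by
    have h2 := Finset.prod_univ_sum (fun _ : Fin 3 => (Finset.univ : Finset (Fin m)))
      (fun _ n => (-1 : ℤ) ^ (n : ℕ))
    rw [Fintype.piFinset_univ] at h2
    rw [← h2, h0]
    simp
  have h3 : ∀ c : Fin 3 → Fin m, (∏ b, (-1 : ℤ) ^ ((c b : Fin m) : ℕ)) =
      2 * (if 2 ∣ ∑ b, ((c b : Fin m) : ℕ) then 1 else 0) - 1 := by
    intro c
    rw [Finset.prod_pow_eq_pow_sum]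
    by_cases h : 2 ∣ ∑ b, ((c b : Fin m) : ℕ)
    · rw [if_pos h, (even_iff_two_dvd.2 h).neg_one_pow]; norm_num
    · have h' : Odd (∑ b, ((c b : Fin m) : ℕ)) := by
        rw [← Nat.not_even_iff_odd, even_iff_two_dvd]; exact h
      rw [if_neg h, h'.neg_one_pow]; norm_num
  rw [Finset.sum_congr rfl fun c _ => h3 c, Finset.sum_sub_distrib, ← Finset.mul_sum,
    Finset.sum_const, Finset.card_univ, Fintype.card_fun, Fintype.card_fin, Fintype.card_fin,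
    nsmul_eq_mul] at h1
  have h4 : (∑ c : Fin 3 → Fin m, (if 2 ∣ ∑ b, ((c b : Fin m) : ℕ) then (1 : ℤ) else 0)) =
      ((fcc m).card : ℤ) := by
    unfold fcc
    rw [Finset.card_filter]
    push_cast
    rfl
  rw [h4] at h1
  push_cast at h1
  have h5 : ((2 * (fcc m).card : ℕ) : ℤ) = ((m ^ 3 : ℕ) : ℤ) := by
    push_cast
    linarith
  exact_mod_cast h5

theorem exists_balanced_S (N : ℕ) {m : ℕ} {S : Finset (Fin 3 → Fin m)} (hS : S.Nonempty) :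
    ∃ a : Fin N → Fin 3 → Fin m, (∀ i, a i ∈ S) ∧
      ∀ c ∈ S, occ a c = N / S.card ∨ occ a c = N / S.card + 1 := by
  have hM : 0 < S.card := hS.card_pos
  let e : S ≃ Fin S.card := S.equivFin
  refine ⟨fun i => (e.symm ⟨(i : ℕ) % S.card, Nat.mod_lt _ hM⟩ : S), fun i => Subtype.prop _,
    fun c hc => ?_⟩
  have h1 : occ (fun i : Fin N => ((e.symm ⟨(i : ℕ) % S.card, Nat.mod_lt _ hM⟩ : S) :
      Fin 3 → Fin m)) c = N.count (fun k => k ≡ (e ⟨c, hc⟩ : ℕ) [MOD S.card]) := by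
    unfold occ
    rw [Nat.count_eq_card_filter_range, Finset.card_filter, Finset.card_filter,
      ← Fin.sum_univ_eq_sum_range
        (fun k => if k ≡ (e ⟨c, hc⟩ : ℕ) [MOD S.card] then 1 else 0) N]
    refine Finset.sum_congr rfl fun i _ => ?_
    have h2 : ((e.symm ⟨(i : ℕ) % S.card, Nat.mod_lt _ hM⟩ : S) : Fin 3 → Fin m) = c ↔
        ((i : ℕ) ≡ (e ⟨c, hc⟩ : ℕ) [MOD S.card]) := by
      have h3 : ((e.symm ⟨(i : ℕ) % S.card, Nat.mod_lt _ hM⟩ : S) : Fin 3 → Fin m) = c ↔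
          e.symm ⟨(i : ℕ) % S.card, Nat.mod_lt _ hM⟩ = (⟨c, hc⟩ : S) := by
        rw [Subtype.ext_iff]
      rw [h3, Equiv.symm_apply_eq, Fin.ext_iff]
      show (i : ℕ) % S.card = (e ⟨c, hc⟩ : ℕ) ↔ (i : ℕ) % S.card = (e ⟨c, hc⟩ : ℕ) % S.card
      rw [Nat.mod_eq_of_lt (e ⟨c, hc⟩).2]
    by_cases h : ((e.symm ⟨(i : ℕ) % S.card, Nat.mod_lt _ hM⟩ : S) : Fin 3 → Fin m) = c
    · rw [if_pos h, if_pos (h2.1 h)]
    · rw [if_neg h, if_neg (fun h' => h (h2.2 h'))]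
  rw [h1, Nat.count_modEq_card _ hM]
  split_ifs
  · exact Or.inr rfl
  · exact Or.inl rfl

theorem exists_same_S (N : ℕ) {m : ℕ} {S : Finset (Fin 3 → Fin m)} (hS : S.Nonempty) :
    ∃ a : Fin N → Fin 3 → Fin m, (∀ i, a i ∈ S) ∧
    (same a : ℝ) = ((N / S.card : ℕ) : ℝ) * N -
      ((N / S.card : ℕ) : ℝ) * (((N / S.card : ℕ) : ℝ) + 1) / 2 * S.card := by
  obtain ⟨a, haS, ha⟩ := exists_balanced_S N hS
  refine ⟨a, haS, ?_⟩
  have h0 : ∀ c, c ∉ S → occ a c = 0 := by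
    intro c hc
    unfold occ
    rw [Finset.card_eq_zero, Finset.filter_eq_empty_iff]
    intro i _ hi
    exact hc (hi ▸ haS i)
  have hsub : ∀ f : ℕ → ℕ, f 0 = 0 → ∑ c ∈ S, f (occ a c) = ∑ c, f (occ a c) := by
    intro f hf
    refine Finset.sum_subset (Finset.subset_univ S) fun c _ hc => ?_
    rw [h0 c hc, hf]
  have h1 : ((∑ c ∈ S, occ a c * occ a c : ℕ) : ℝ) = ((N + 2 * same a : ℕ) : ℝ) := by
    rw [hsub (fun x => x * x) rfl, sum_occ_sq a]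
  have h2 : ((∑ c ∈ S, occ a c : ℕ) : ℝ) = (N : ℝ) := by
    rw [hsub (fun x => x) rfl, sum_occ a]
  set q : ℝ := ((N / S.card : ℕ) : ℝ) with hq
  have h3 : ∀ c ∈ S, (occ a c : ℝ) * occ a c = (2 * q + 1) * occ a c - q * (q + 1) := by
    intro c hc
    rcases ha c hc with h | h
    · rw [h, ← hq]; ring
    · rw [h]; push_cast; rw [← hq]; ring
  push_cast at h1 h2
  rw [Finset.sum_congr rfl h3, Finset.sum_sub_distrib, ← Finset.mul_sum, h2,
    Finset.sum_const, nsmul_eq_mul] at h1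
  linarith

end Pool.Agent.P76f
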