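import Pool.Agent.Lib.P76f.Defs
import Pool.Agent.Lib.P76b.SitePair

/-! # P76f.Pair: sites of the face-centred cubic lattice, potential of range `R` in Euclidean norm
As in P76b.SitePair: with `ℓ = L/m`, `y b/ℓ` is within `t₀` of `p b ≡ c b mod m`, `z b/ℓ` within `t₀` of
`q b ≡ c' b mod m`; put `d b = p b - q b + m * n b` (integers).  As `m` is even, `∑ d b` is even.  If
`w (y - z + L n) ≠ 0` then `∑ (y b - z b + L n b)² < R² ≤ ((√2 - 4 t₀) ℓ)²` and
`|y b - z b + L n b - ℓ d b| ≤ 2 t₀ ℓ` (`< 2 t₀ ℓ`).  If `d ≠ 0` then `∑ (d b)² ≥ 2` (even sum), so by the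
triangle inequality in Euclidean norm the left-hand side is at least `ℓ (√2 - 2 √3 t₀) > (√2 - 4 t₀) ℓ`:
contradiction.  So `d = 0`: `c = c'` and `n` is unique. -/

open MeasureTheory Filter Topology
open scoped ENNReal NNReal BigOperators ContDiff

namespace Pool.Agent.P76f

open Pool.Agent.P76s Pool.Agent.P76b

namespace PairAux

lemma two_dvd {m : ℕ} (hm2 : 2 ∣ m) {p : ℤ} {c : ℕ} (h : p % (m : ℤ) = (c : ℤ)) :
    (2 : ℤ) ∣ p - c := by
  obtain ⟨k, rfl⟩ := hm2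
  push_cast at h
  have h1 := Int.emod_add_mul_ediv p (2 * (k : ℤ))
  refine ⟨k * (p / (2 * (k : ℤ))), ?_⟩
  rw [h] at h1
  linarith

lemma sum_sq_lt {t₀ ρ : ℝ} {s : Fin 3 → ℝ} {d : Fin 3 → ℤ} (ht : 0 < t₀) (hρ : 0 < ρ)
    (h2 : ρ + 4 * t₀ = Real.sqrt 2) (hs : ∑ b, s b ^ 2 < ρ ^ 2)
    (he : ∀ b, |s b - d b| < 2 * t₀) : ∑ b, d b ^ 2 < 2 := by
  have h3 : ∑ b, (s b - d b) ^ 2 ≤ (4 * t₀) ^ 2 := by
    have h0 : ∀ b, (s b - d b) ^ 2 ≤ (2 * t₀) ^ 2 := fun b => by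
      have := abs_lt.1 (he b)
      exact sq_le_sq' this.1.le this.2.le
    calc ∑ b, (s b - d b) ^ 2 ≤ ∑ _b : Fin 3, (2 * t₀) ^ 2 := Finset.sum_le_sum fun b _ => h0 b
      _ = 3 * (2 * t₀) ^ 2 := by simp
      _ ≤ (4 * t₀) ^ 2 := by nlinarith [sq_nonneg t₀]
  have h4 : (∑ b, s b * (s b - d b)) ^ 2 ≤ (ρ * (4 * t₀)) ^ 2 := by
    refine (Finset.sum_mul_sq_le_sq_mul_sq _ _ _).trans ?_
    rw [mul_pow]
    exact mul_le_mul hs.le h3 (Finset.sum_nonneg fun b _ => sq_nonneg _) (sq_nonneg _)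
  have h5 : -(ρ * (4 * t₀)) ≤ ∑ b, s b * (s b - d b) :=
    (abs_le_of_sq_le_sq' h4 (by positivity)).1
  have h6 : (∑ b, (d b : ℝ) ^ 2) =
      ∑ b, s b ^ 2 - 2 * ∑ b, s b * (s b - d b) + ∑ b, (s b - d b) ^ 2 := by
    rw [Finset.mul_sum, ← Finset.sum_sub_distrib, ← Finset.sum_add_distrib]
    exact Finset.sum_congr rfl fun b _ => by ring
  have h7 : (ρ + 4 * t₀) ^ 2 = 2 := by rw [h2, Real.sq_sqrt (by norm_num)]
  have h8 : (∑ b, (d b : ℝ) ^ 2) < 2 := by
    rw [h6]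
    have e : (ρ + 4 * t₀) ^ 2 = ρ ^ 2 + 2 * (ρ * (4 * t₀)) + (4 * t₀) ^ 2 := by ring
    linarith
  exact_mod_cast h8

lemma eq_zero {d : Fin 3 → ℤ} (h : ∑ b, d b ^ 2 < 2) (hd : (2 : ℤ) ∣ ∑ b, d b) (b : Fin 3) :
    d b = 0 := by
  rw [Fin.sum_univ_three] at h hd
  have h0 := sq_nonneg (d 0)
  have h1 := sq_nonneg (d 1)
  have h2 := sq_nonneg (d 2)
  have key : ∀ x : ℤ, x ^ 2 < 2 → x = 0 ∨ x = 1 ∨ x = -1 := fun x hx => by
    have h3 : x < 2 := by nlinarith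
    have h4 : -2 < x := by nlinarith
    omega
  have k0 := key (d 0) (by linarith)
  have k1 := key (d 1) (by linarith)
  have k2 := key (d 2) (by linarith)
  obtain ⟨t, ht⟩ := hd
  rcases k0 with k0 | k0 | k0 <;> rcases k1 with k1 | k1 | k1 <;> rcases k2 with k2 | k2 | k2 <;>
    rw [k0, k1, k2] at h ht <;> first
      | (fin_cases b <;> assumption)
      | (exfalso; omega)

end PairAux

open PairAux SitePairAux in
theorem W_site_fcc {m : ℕ} {L : ℝ} {φ : ℝ → ℝ} {t₀ : ℝ} (h : SiteData m L φ t₀) (hm2 : 2 ∣ m)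
    (ht₀ : 0 < t₀) {R M : ℝ} (hR0 : 0 < R) (hR : R ≤ (Real.sqrt 2 - 4 * t₀) * (L / m))
    {w : (Fin 3 → ℝ) → ℝ≥0∞}
    (hwM : ∀ y, w y ≤ ENNReal.ofReal M) (hw0 : ∀ y : Fin 3 → ℝ, R ^ 2 ≤ ∑ b, y b ^ 2 → w y = 0)
    {y z : Fin 3 → ℝ} {c c' : Fin 3 → Fin m} (hc : c ∈ fcc m) (hc' : c' ∈ fcc m)
    (hy : ∀ b, site m L φ (c b) (y b) ≠ 0) (hz : ∀ b, site m L φ (c' b) (z b) ≠ 0) :
    periodize L w (y - z) ≤ if c = c' then ENNReal.ofReal M else 0 := by
  have hm : (0 : ℤ) < m := by exact_mod_cast h.m_pos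
  have hmR : (0 : ℝ) < m := by exact_mod_cast h.m_pos
  have hL := h.L_pos
  have hℓ : 0 < L / m := div_pos hL hmR
  have hρ : 0 < Real.sqrt 2 - 4 * t₀ := by
    by_contra hneg
    have : (Real.sqrt 2 - 4 * t₀) * (L / m) ≤ 0 :=
      mul_nonpos_of_nonpos_of_nonneg (not_lt.1 hneg) hℓ.le
    linarith
  have key : ∀ n : Fin 3 → ℤ, w (y - z + lat L n) ≠ 0 → ∀ b,
      round (y b / (L / m)) - round (z b / (L / m)) + (m : ℤ) * n b = 0 := by
    intro n hn
    refine eq_zero (d := fun b => round (y b / (L / m)) - round (z b / (L / m)) + (m : ℤ) * n b)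
      (sum_sq_lt (s := fun b => y b / (L / m) - z b / (L / m) + m * n b) ht₀ hρ (by ring) ?_ ?_) ?_
    · by_contra hlt
      apply hn
      apply hw0
      rw [not_lt] at hlt
      have e : ∑ b, (y - z + lat L n) b ^ 2 =
          (∑ b, (y b / (L / m) - z b / (L / m) + m * n b) ^ 2) * (L / m) ^ 2 := by
        rw [Finset.sum_mul]
        refine Finset.sum_congr rfl fun b _ => ?_
        rw [← mul_pow]
        congr 1
        simp only [Pi.add_apply, Pi.sub_apply, lat]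
        field_simp
      rw [e]
      calc R ^ 2 ≤ ((Real.sqrt 2 - 4 * t₀) * (L / m)) ^ 2 := pow_le_pow_left₀ hR0.le hR 2
        _ = (Real.sqrt 2 - 4 * t₀) ^ 2 * (L / m) ^ 2 := by rw [mul_pow]
        _ ≤ _ := mul_le_mul_of_nonneg_right hlt (sq_nonneg _)
    · intro b
      have h1 := abs_lt.1 (h.sup (y b) (site_ne (hy b)).2)
      have h2 := abs_lt.1 (h.sup (z b) (site_ne (hz b)).2)
      push_cast
      rw [abs_lt]
      constructor <;> linarith [h1.1, h1.2, h2.1, h2.2]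
    · have h1 : (2 : ℤ) ∣ ∑ b, (round (y b / (L / m)) - ((c b : ℕ) : ℤ)) :=
        Finset.dvd_sum fun b _ => two_dvd hm2 (site_ne (hy b)).1
      have h2 : (2 : ℤ) ∣ ∑ b, (round (z b / (L / m)) - ((c' b : ℕ) : ℤ)) :=
        Finset.dvd_sum fun b _ => two_dvd hm2 (site_ne (hz b)).1
      have h3 : (2 : ℤ) ∣ ∑ b, (m : ℤ) * n b :=
        Finset.dvd_sum fun b _ => Dvd.dvd.mul_right (by exact_mod_cast hm2) _
      have h4 : (2 : ℤ) ∣ ∑ b, ((c b : ℕ) : ℤ) := by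
        have := (Finset.mem_filter.1 hc).2
        exact_mod_cast this
      have h5 : (2 : ℤ) ∣ ∑ b, ((c' b : ℕ) : ℤ) := by
        have := (Finset.mem_filter.1 hc').2
        exact_mod_cast this
      rw [Finset.sum_sub_distrib] at h1 h2
      rw [Finset.sum_add_distrib, Finset.sum_sub_distrib]
      omega
  by_cases hcc : c = c'
  · rw [if_pos hcc]
    unfold periodize
    rw [tsum_eq_single (fun b => (round (z b / (L / m)) - round (y b / (L / m))) / (m : ℤ))]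
    · exact hwM _
    · intro n hn
      by_contra hne
      apply hn
      funext b
      have h1 := key n hne b
      have h2 : round (z b / (L / m)) - round (y b / (L / m)) = (m : ℤ) * n b := by linarith
      rw [h2, Int.mul_ediv_cancel_left _ hm.ne']
  · rw [if_neg hcc]
    unfold periodize
    refine le_of_eq (ENNReal.tsum_eq_zero.2 fun n => ?_)
    by_contra hne
    apply hcc
    funext b
    have h1 := key n hne b
    have h2 := (site_ne (hy b)).1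
    have h3 := (site_ne (hz b)).1
    have h4 : round (z b / (L / m)) = round (y b / (L / m)) + (m : ℤ) * n b := by linarith
    rw [h4, Int.add_mul_emod_self_left, h2] at h3
    apply Fin.ext
    exact_mod_cast h3

end Pool.Agent.P76f
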