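import Pool.Agent.Lib.P76f.ClusterS
import Pool.Agent.Lib.P76f.Pair
import Pool.Agent.Lib.P76f.Count
import Pool.Agent.Lib.P76h.Main

/-! # P76f.Main: strong coupling with close-packed sites -/

open MeasureTheory Filter Topology
open scoped ENNReal NNReal BigOperators ContDiff

namespace Pool.Agent.P76f

open Pool.Agent.P76s Pool.Agent.P76s.SimpleLowerAux Pool.Agent.P76b

variable {v : E3 → ℝ}

/-- The choice of the volume per site. -/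
theorem threshold_vol {M Q V ρs : ℝ} (hM : 0 ≤ M) (hQ : 0 < Q) (hρs : 0 < ρs)
    (h1 : 9 / 8 * (M * Q) < V) (h2 : M < ρs * V) :
    ∃ Q₁ > Q, ∃ η > 0, ∀ ρ ≥ ρs, ∀ τ : ℝ, Q ≤ τ → τ ≤ Q₁ → ∀ (k : ℕ),
      (k : ℝ) ≤ ρ * τ →
      η * ρ ≤ ρ * V - M - M * (2 * (k : ℝ) - k * (k + 1) / (ρ * τ)) := by
  have hcont : Tendsto (fun q : ℝ => 9 / 8 * (M * q)) (𝓝[>] Q) (𝓝 (9 / 8 * (M * Q))) := by
    have : Continuous fun q : ℝ => 9 / 8 * (M * q) := by fun_prop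
    exact this.continuousWithinAt
  obtain ⟨Q₁, hQ₁, hR1⟩ := ((hcont.eventually (gt_mem_nhds h1)).and
    self_mem_nhdsWithin).exists
  have hR1' : Q < Q₁ := hR1
  refine ⟨Q₁, hR1', min (V - 9 / 8 * (M * Q₁)) (V - M / ρs), ?_, ?_⟩
  · refine lt_min (by linarith) ?_
    rw [sub_pos, div_lt_iff₀ hρs]
    linarith
  intro ρ hρ τ hτ hτ' k hk
  have hρ0 : 0 < ρ := lt_of_lt_of_le hρs hρ
  have hτ0 : 0 < τ := lt_of_lt_of_le hQ hτ
  rcases Nat.eq_zero_or_pos k with h0 | h0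
  · rw [h0]
    simp only [Nat.cast_zero, mul_zero, zero_mul, zero_div, sub_zero]
    have h3 : min (V - 9 / 8 * (M * Q₁)) (V - M / ρs) * ρ ≤ (V - M / ρs) * ρ := by
      gcongr
      exact min_le_right _ _
    have h4 : M ≤ M / ρs * ρ := by
      rw [div_mul_eq_mul_div, le_div_iff₀ hρs]
      gcongr
    linarith
  · have h3 := nine_bound h0 hk
    have h4 : min (V - 9 / 8 * (M * Q₁)) (V - M / ρs) * ρ ≤
        (V - 9 / 8 * (M * Q₁)) * ρ := by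
      gcongr
      exact min_le_left _ _
    have h5 : M * (9 / 8 * (ρ * τ)) ≤ M * (9 / 8 * (ρ * Q₁)) := by gcongr
    have h6 := mul_le_mul_of_nonneg_left h3 hM
    nlinarith

/-- the range condition in coordinates -/
theorem pot_zero {R : ℝ} (hR : 0 < R) (hsupp : ∀ x : E3, R ≤ ‖x‖ → v x = 0) (g : ℝ)
    (y : Fin 3 → ℝ) (hy : R ^ 2 ≤ ∑ b, y b ^ 2) : pot (fun x => g * v x) y = 0 := by
  have h1 : R ≤ ‖(WithLp.toLp 2 y : E3)‖ := by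
    rw [EuclideanSpace.norm_eq]
    refine Real.le_sqrt_of_sq_le ?_
    simpa using hy
  unfold pot
  simp only [hsupp _ h1, mul_zero, ENNReal.ofReal_zero]

/-- the energy of the trial functions, all volumes -/
theorem fcc_upper {M R Q₁ : ℝ} (hR : 0 < R) (hM : ∀ x, v x ≤ M) (hv0 : ∀ x, 0 ≤ v x)
    (hsupp : ∀ x : E3, R ≤ ‖x‖ → v x = 0) (hQ₁ : R ^ 3 / Real.sqrt 2 < Q₁) :
    ∃ K ≥ 0, ∀ ρ > 0, ∃ N₀ : ℕ, ∀ N ≥ N₀, 0 < N ∧ ∃ ns : ℕ, 0 < ns ∧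
      R ^ 3 / Real.sqrt 2 ≤ N / (ρ * ns) ∧ N / (ρ * ns) ≤ Q₁ ∧ ∀ g > 0,
      groundEnergy N ((N / ρ) ^ (1 / 3 : ℝ))
        (periodize ((N / ρ) ^ (1 / 3 : ℝ)) (pot fun x => g * v x)) ≤
        ENNReal.ofReal (N * K + g * M * (((N / ns : ℕ) : ℝ) * N -
          ((N / ns : ℕ) : ℝ) * (((N / ns : ℕ) : ℝ) + 1) / 2 * ns)) := by
  have hM0 : 0 ≤ M := (hv0 0).trans (hM 0)
  have hs2 : 0 < Real.sqrt 2 := by positivity
  have hs2' : Real.sqrt 2 ^ 2 = 2 := Real.sq_sqrt (by norm_num)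
  have hs3 : Real.sqrt 2 < 2 := by nlinarith
  set R' := R / Real.sqrt 2 with hR'
  have hR'0 : 0 < R' := by positivity
  have hQR : 2 * R' ^ 3 = R ^ 3 / Real.sqrt 2 := by
    rw [hR', div_pow]
    have h3 : Real.sqrt 2 ^ 3 = 2 * Real.sqrt 2 := by
      rw [pow_succ, hs2']
    rw [h3]
    field_simp
  have hcont : Tendsto (fun ℓ : ℝ => 2 * ℓ ^ 3) (𝓝[>] R') (𝓝 (2 * R' ^ 3)) := by
    have : Continuous fun ℓ : ℝ => 2 * ℓ ^ 3 := by fun_prop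
    exact this.continuousWithinAt
  obtain ⟨ℓ₁, hℓQ, hR1⟩ := ((hcont.eventually (gt_mem_nhds (by rw [hQR]; exact hQ₁))).and
    self_mem_nhdsWithin).exists
  have hℓ₁ : R' < ℓ₁ := hR1
  set ℓ₀ := (R' + ℓ₁) / 2 with hℓ₀
  have hRℓ : R' < ℓ₀ := by rw [hℓ₀]; linarith
  have hℓℓ : ℓ₀ < ℓ₁ := by rw [hℓ₀]; linarith
  have hℓ0 : 0 < ℓ₀ := by linarith
  have hℓ1 : 0 < ℓ₁ := by linarith
  have hRR : R = Real.sqrt 2 * R' := by rw [hR']; field_simp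
  set t₀ := (Real.sqrt 2 - R / ℓ₀) / 4 with ht₀
  have hRq : R / ℓ₀ < Real.sqrt 2 := by
    rw [div_lt_iff₀ hℓ0, hRR]
    gcongr
  have hRq0 : 0 < R / ℓ₀ := by positivity
  have ht0 : 0 < t₀ := by rw [ht₀]; linarith
  have ht1 : t₀ < 1 / 2 := by rw [ht₀]; linarith
  have ht2 : (Real.sqrt 2 - 4 * t₀) * ℓ₀ = R := by rw [ht₀]; field_simp; ring
  obtain ⟨θ, hθ, hθper, hθsup, hA1⟩ := exists_theta ht0 ht1
  set A₁ := ∫ t in Set.Ico (0:ℝ) 1, θ t ^ 2 with hA₁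
  set D₁ := ∫ t in Set.Ico (0:ℝ) 1, (deriv θ t) ^ 2 with hD₁
  have hD1 : 0 ≤ D₁ := integral_nonneg fun t => by positivity
  set K := D₁ / A₁ with hK
  have hK0 : 0 ≤ K := by positivity
  refine ⟨3 / 2 * (K / R' ^ 2), by positivity, ?_⟩
  intro ρ hρ0
  obtain ⟨N₀, hN₀⟩ := eventually_atTop.1 ((tendsto_side hρ0).eventually_ge_atTop
    (max (2 * ℓ₀) (2 * ℓ₀ * ℓ₁ / (ℓ₁ - ℓ₀))))
  refine ⟨max N₀ 1, ?_⟩
  intro N hN
  have hNpos : 0 < N := lt_of_lt_of_le one_pos (le_trans (le_max_right _ _) hN)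
  have hNpos' : (0 : ℝ) < N := by exact_mod_cast hNpos
  refine ⟨hNpos, ?_⟩
  have hLbig := hN₀ N (le_trans (le_max_left _ _) hN)
  set L := ((N : ℝ) / ρ) ^ (1 / 3 : ℝ) with hL
  have hL3 : L ^ 3 = N / ρ := side_cube hρ0 N
  have hLℓ : 2 * ℓ₀ ≤ L := (le_max_left _ _).trans hLbig
  have hLℓ' : 2 * ℓ₀ * ℓ₁ / (ℓ₁ - ℓ₀) ≤ L := (le_max_right _ _).trans hLbig
  have hL0 : 0 < L := by linarith
  set q := ⌊L / (2 * ℓ₀)⌋₊ with hq
  have hq0 : 0 < q := Nat.floor_pos.2 (by rw [le_div_iff₀ (by positivity)]; linarith)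
  have hq0' : (0 : ℝ) < q := by exact_mod_cast hq0
  have hq1 : (q : ℝ) ≤ L / (2 * ℓ₀) := Nat.floor_le (by positivity)
  have hq2 : L / (2 * ℓ₀) < q + 1 := Nat.lt_floor_add_one _
  set m := 2 * q with hm
  have hm0 : 0 < m := by omega
  have hm0' : (0 : ℝ) < m := by exact_mod_cast hm0
  have hmq : (m : ℝ) = 2 * q := by rw [hm]; push_cast; ring
  have hm2 : 2 ∣ m := ⟨q, hm⟩
  have hcell1 : ℓ₀ ≤ L / m := by
    rw [le_div_iff₀ hm0', hmq]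
    rw [le_div_iff₀ (by positivity)] at hq1
    linarith
  have hcell2 : L / m ≤ ℓ₁ := by
    rw [div_le_iff₀ hm0', hmq]
    have h1 : 2 * ℓ₀ * ℓ₁ ≤ L * (ℓ₁ - ℓ₀) := by
      rwa [div_le_iff₀ (by linarith)] at hLℓ'
    rw [div_lt_iff₀ (by positivity)] at hq2
    have h2 : L * ℓ₁ ≤ (q + 1) * (2 * ℓ₀) * ℓ₁ := by gcongr
    have h3 : L * ℓ₀ ≤ ℓ₁ * (2 * q) * ℓ₀ := by nlinarith
    exact le_of_mul_le_mul_right h3 hℓ0
  set φ : ℝ → ℝ := fun t => θ (m * t / L) with hφ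
  have hdata : SiteData m L φ t₀ := by
    refine ⟨hm0, hL0, ?_, ?_, ht1, ?_⟩
    · exact hθ.comp ((contDiff_const.mul contDiff_id).div_const L)
    · intro t
      have h1 : (m : ℝ) * (t + L / m) / L = m * t / L + 1 := by field_simp
      simp only [hφ]
      rw [h1]
      exact hθper _
    · intro t ht
      have h1 : t / (L / m) = m * t / L := by field_simp
      rw [h1]
      exact hθsup _ ht
  have hA := scale_sq hθ hθper hL0 hm0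
  have hD := scale_deriv hθ hθper hL0 hm0
  have hRm : R ≤ (Real.sqrt 2 - 4 * t₀) * (L / m) := by
    have h1 : 0 ≤ Real.sqrt 2 - 4 * t₀ := by rw [ht₀]; linarith
    calc R = (Real.sqrt 2 - 4 * t₀) * ℓ₀ := ht2.symm
      _ ≤ _ := by gcongr
  set ns := (fcc m).card with hns
  have hcard : 2 * ns = m ^ 3 := card_fcc hm2
  have hns0 : 0 < ns := by
    have : 0 < m ^ 3 := by positivity
    omega
  have hns0' : (0 : ℝ) < ns := by exact_mod_cast hns0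
  have hcard' : 2 * (ns : ℝ) = m ^ 3 := by exact_mod_cast hcard
  have hτ : (N : ℝ) / (ρ * ns) = 2 * (L / m) ^ 3 := by
    rw [div_pow, hL3, ← hcard']
    field_simp
  obtain ⟨a, haS, ha⟩ := exists_same_S N (S := fcc m) (Finset.card_pos.1 hns0)
  have hup := fun (g : ℝ) (hg0 : 0 < g) => cluster_upper_S (N := N) hdata (A := L * A₁)
    (D := (m : ℝ) ^ 2 / L * D₁) (M := g * M) (by positivity) hA hD (by positivity)
    (W := periodize L (pot fun x => g * v x)) (S := fcc m)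
    (fun c hc c' hc' y z hy hz => W_site_fcc hdata hm2 ht0 hR hRm
      (fun y => ENNReal.ofReal_le_ofReal
        (mul_le_mul_of_nonneg_left (hM (WithLp.toLp 2 y)) hg0.le))
      (pot_zero hR hsupp g) hc hc' hy hz) a haS
  refine ⟨ns, hns0, ?_, ?_, ?_⟩
  · rw [hτ, ← hQR]
    have : R' ≤ L / m := hRℓ.le.trans hcell1
    gcongr
  · rw [hτ]
    refine le_trans ?_ hℓQ.le
    gcongr
  · intro g hg0
    refine (hup g hg0).trans (ENNReal.ofReal_le_ofReal ?_)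
    rw [ha]
    have hDA : (m : ℝ) ^ 2 / L * D₁ / (L * A₁) = K / (L / m) ^ 2 := by
      rw [hK]
      field_simp
    have hKR : K / (L / m) ^ 2 ≤ K / R' ^ 2 := by
      have : R' ≤ L / m := hRℓ.le.trans hcell1
      gcongr
    rw [hDA]
    gcongr

/-- the energy per particle is bounded, independently of the coupling, if `ρ ≤ ρ₂ < √2 R⁻³` -/
theorem upper_free {R ρ₂ : ℝ} (hR : 0 < R) (hsupp : ∀ x : E3, R ≤ ‖x‖ → v x = 0)
    {M : ℝ} (hM : ∀ x, v x ≤ M) (hv0 : ∀ x, 0 ≤ v x) (hρ₂ : ρ₂ * (R ^ 3 / Real.sqrt 2) < 1) :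
    ∃ E₁ > 0, ∀ g > 0, ∀ ρ > 0, ρ ≤ ρ₂ → ∃ N₀ : ℕ, ∀ N ≥ N₀,
      groundEnergy N ((N / ρ) ^ (1 / 3 : ℝ))
        (periodize ((N / ρ) ^ (1 / 3 : ℝ)) (pot fun x => g * v x)) ≤
        ENNReal.ofReal (E₁ * N) := by
  have hcont : Tendsto (fun q : ℝ => ρ₂ * q) (𝓝[>] (R ^ 3 / Real.sqrt 2))
      (𝓝 (ρ₂ * (R ^ 3 / Real.sqrt 2))) := by
    have : Continuous fun q : ℝ => ρ₂ * q := by fun_prop
    exact this.continuousWithinAt
  obtain ⟨Q₁, hρQ, hQ1⟩ := ((hcont.eventually (gt_mem_nhds hρ₂)).and self_mem_nhdsWithin).exists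
  have hQ₁ : R ^ 3 / Real.sqrt 2 < Q₁ := hQ1
  have hQ₁0 : 0 < Q₁ := lt_trans (by positivity) hQ₁
  obtain ⟨K, hK, h⟩ := fcc_upper hR hM hv0 hsupp hQ₁
  refine ⟨K + 1, by positivity, fun g hg ρ hρ hρρ => ?_⟩
  obtain ⟨N₀, hN₀⟩ := h ρ hρ
  refine ⟨N₀, fun N hN => ?_⟩
  obtain ⟨hNpos, ns, hns, -, h2, hup⟩ := hN₀ N hN
  have hNpos' : (0 : ℝ) < N := by exact_mod_cast hNpos
  have hns' : (0 : ℝ) < ns := by exact_mod_cast hns
  refine (hup g hg).trans (ENNReal.ofReal_le_ofReal ?_)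
  have hlt : (N : ℝ) < ns := by
    rw [div_le_iff₀ (by positivity)] at h2
    calc (N : ℝ) ≤ Q₁ * (ρ * ns) := h2
      _ ≤ Q₁ * (ρ₂ * ns) := by gcongr
      _ = ρ₂ * Q₁ * ns := by ring
      _ < 1 * ns := by gcongr
      _ = ns := one_mul _
  have hk : N / ns = 0 := Nat.div_eq_of_lt (by exact_mod_cast hlt)
  rw [hk]
  simp only [Nat.cast_zero, zero_mul, zero_div, sub_zero, mul_zero, add_zero]
  nlinarith

/-- the dense case -/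
theorem upper_dense (hv : Integrable v) (hv0 : ∀ x, 0 ≤ v x) {M R ρs : ℝ}
    (hR : 0 < R) (hM : ∀ x, v x ≤ M) (hsupp : ∀ x : E3, R ≤ ‖x‖ → v x = 0) (hρs : 0 < ρs)
    (hV : 9 / 8 * (M * (R ^ 3 / Real.sqrt 2)) < ∫ x, v x) (hV2 : M < ρs * ∫ x, v x) :
    ∃ g₁ > 0, ∃ c > 0, ∀ g ≥ g₁, ∀ ρ ≥ ρs, ∃ N₀ : ℕ, ∀ (u : E3 → ℝ) (e : ℝ),
      IsSimpleSolution (fun x => g * v x) ρ u e → (∀ᵐ x, u x ≤ 1) → ∀ N ≥ N₀,
      groundEnergy N ((N / ρ) ^ (1 / 3 : ℝ))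
        (periodize ((N / ρ) ^ (1 / 3 : ℝ)) (pot fun x => g * v x)) ≤
        ENNReal.ofReal ((e - c * g * ρ) * N) := by
  have hM0 : 0 ≤ M := (hv0 0).trans (hM 0)
  have hQ0 : 0 < R ^ 3 / Real.sqrt 2 := by positivity
  set V := ∫ x, v x with hVd
  have hne : 0 < V := by
    have h0 : 0 ≤ M * (R ^ 3 / Real.sqrt 2) := by positivity
    nlinarith
  obtain ⟨Q₁, hQ₁, η, hη, hthr⟩ := threshold_vol hM0 hQ0 hρs hV hV2
  obtain ⟨K, hK, h⟩ := fcc_upper hR hM hv0 hsupp hQ₁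
  refine ⟨4 * K / (η * ρs) + 1, by positivity, η / 4, by positivity, ?_⟩
  intro g hg ρ hρ
  have hg' : 4 * K / (η * ρs) ≤ g := by linarith
  have hg0 : 0 < g := by
    have : 0 ≤ 4 * K / (η * ρs) := by positivity
    linarith
  have hρ0 : 0 < ρ := lt_of_lt_of_le hρs hρ
  obtain ⟨N₀, hN₀⟩ := h ρ hρ0
  refine ⟨N₀, fun u e hsol hu1 N hN => ?_⟩
  obtain ⟨hNpos, ns, hns, h1, h2, hup⟩ := hN₀ N hN
  have hNpos' : (0 : ℝ) < N := by exact_mod_cast hNpos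
  have hns' : (0 : ℝ) < ns := by exact_mod_cast hns
  refine (hup g hg0).trans (ENNReal.ofReal_le_ofReal ?_)
  set τ := (N : ℝ) / (ρ * ns) with hτ
  set k := N / ns with hk
  have hνeq : ρ * τ = (N : ℝ) / ns := by
    rw [hτ]; field_simp
  have hkν : (k : ℝ) ≤ ρ * τ := by
    rw [hνeq, hk]
    exact Nat.cast_div_le
  have hth := hthr ρ hρ τ h1 h2 k hkν
  have hlow := e_lower hv hv0 hne hM hg0 hρ0 hsol hu1
  have hsame : (k : ℝ) * N - k * (k + 1) / 2 * ns =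
      N / 2 * (2 * (k : ℝ) - k * (k + 1) / (ρ * τ)) := by
    rw [hνeq]
    field_simp
  have hgK : K ≤ g * (η * ρ) / 4 := by
    rw [div_le_iff₀ (by positivity)] at hg'
    have h3 : 4 * K ≤ g * (η * ρ) := hg'.trans (by gcongr)
    linarith
  rw [hsame]
  set H := 2 * (k : ℝ) - k * (k + 1) / (ρ * τ) with hH
  have hfin : K + g * M * (1 / 2 * H) ≤ e - η / 4 * g * ρ := by
    have h2 := mul_le_mul_of_nonneg_left hth (show 0 ≤ g / 2 by positivity)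
    have h3 : g / 2 * (η * ρ) ≤ g / 2 * (ρ * V - M) - g * M * (1 / 2 * H) := by
      refine h2.trans (le_of_eq ?_)
      ring
    linarith
  calc (N : ℝ) * K + g * M * (N / 2 * H)
      = (K + g * M * (1 / 2 * H)) * N := by ring
    _ ≤ (e - η / 4 * g * ρ) * N := by gcongr

theorem rho_max {R ρ₂ : ℝ} (hR : 0 < R) (hρ₂ : ρ₂ * (R ^ 3 / Real.sqrt 2) < 1) :
    max ρ₂ (8 / (9 * (R ^ 3 / Real.sqrt 2))) * (R ^ 3 / Real.sqrt 2) < 1 := by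
  have hQ : 0 < R ^ 3 / Real.sqrt 2 := by positivity
  set Q := R ^ 3 / Real.sqrt 2 with hQd
  rcases le_total ρ₂ (8 / (9 * Q)) with h | h
  · rw [max_eq_right h, div_mul_eq_mul_div, div_lt_one (by positivity)]
    linarith
  · rw [max_eq_left h]; exact hρ₂

theorem dense_const {M Q V : ℝ} (hQ : 0 < Q) (hV : 9 / 8 * (M * Q) < V) :
    M < 8 / (9 * Q) * V := by
  rw [div_mul_eq_mul_div, lt_div_iff₀ (by positivity)]
  linarith

/-- Part A -/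
theorem main_A (hvm : Measurable v) (hv : Integrable v) (hv0 : ∀ x, 0 ≤ v x) {M R : ℝ}
    (hR : 0 < R) (hM : ∀ x, v x ≤ M) (hsupp : ∀ x : E3, R ≤ ‖x‖ → v x = 0) {r : ℝ}
    (hr : 0 < r) (hpos : ∀ x : E3, ‖x‖ < r → 0 < v x) {ρ₂ : ℝ}
    (hρ₂ : ρ₂ * (R ^ 3 / Real.sqrt 2) < 1) :
    ∃ ε > 0, ∃ g₁ > 0, ∃ c > 0, ∀ g ≥ g₁, ∀ ρ > 0,
      1 - ε ≤ ρ * volume.real (Metric.ball (0 : E3) r) →
      (ρ ≤ ρ₂ ∨ 9 / 8 * (M * (R ^ 3 / Real.sqrt 2)) < ∫ x, v x) →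
      ∃ N₀ : ℕ, ∀ (u : E3 → ℝ) (e : ℝ),
      IsSimpleSolution (fun x => g * v x) ρ u e → (∀ᵐ x, u x ≤ 1) → ∀ N ≥ N₀,
      groundEnergy N ((N / ρ) ^ (1 / 3 : ℝ))
        (periodize ((N / ρ) ^ (1 / 3 : ℝ)) (pot fun x => g * v x)) ≤
        ENNReal.ofReal ((e - c) * N) := by
  have hρm := rho_max hR hρ₂
  have hQ : 0 < R ^ 3 / Real.sqrt 2 := by positivity
  obtain ⟨E₁, hE₁, hup⟩ := upper_free hR hsupp hM hv0 hρm
  obtain ⟨ε, hε, -, g₁, hg₁, hlarge⟩ := P76h.e_large hvm hv hv0 hr hpos (E₁ + 1)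
  set Q := R ^ 3 / Real.sqrt 2 with hQd
  have hfree : ∀ g ≥ g₁, ∀ ρ > 0, 1 - ε ≤ ρ * volume.real (Metric.ball (0 : E3) r) →
      ρ ≤ max ρ₂ (8 / (9 * Q)) → ∃ N₀ : ℕ, ∀ (u : E3 → ℝ) (e : ℝ),
      IsSimpleSolution (fun x => g * v x) ρ u e → (∀ᵐ x, u x ≤ 1) → ∀ N ≥ N₀,
      groundEnergy N ((N / ρ) ^ (1 / 3 : ℝ))
        (periodize ((N / ρ) ^ (1 / 3 : ℝ)) (pot fun x => g * v x)) ≤
        ENNReal.ofReal ((e - 1) * N) := by
    intro g hg ρ hρ hρb hρρ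
    obtain ⟨N₀, hN₀⟩ := hup g (lt_of_lt_of_le hg₁ hg) ρ hρ hρρ
    refine ⟨N₀, fun u e hs hu N hN => (hN₀ N hN).trans (ENNReal.ofReal_le_ofReal
      (mul_le_mul_of_nonneg_right ?_ (Nat.cast_nonneg N)))⟩
    have := hlarge g hg ρ hρ hρb u e hs hu
    linarith
  by_cases hV : 9 / 8 * (M * Q) < ∫ x, v x
  · obtain ⟨g₂, hg₂, c, hc, hd⟩ := upper_dense hv hv0 hR hM hsupp
      (show 0 < 8 / (9 * Q) by positivity) hV (dense_const hQ hV)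
    refine ⟨ε, hε, max g₁ g₂, by positivity, min 1 (c * g₂ * (8 / (9 * Q))), by positivity,
      ?_⟩
    intro g hg ρ hρ hρb _
    have hgg₁ : g₁ ≤ g := (le_max_left _ _).trans hg
    have hgg₂ : g₂ ≤ g := (le_max_right _ _).trans hg
    rcases le_total ρ (8 / (9 * Q)) with hle | hge
    · obtain ⟨N₀, hN₀⟩ := hfree g hgg₁ ρ hρ hρb (hle.trans (le_max_right _ _))
      refine ⟨N₀, fun u e hs hu N hN => (hN₀ u e hs hu N hN).trans (ENNReal.ofReal_le_ofReal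
        (mul_le_mul_of_nonneg_right ?_ (Nat.cast_nonneg N)))⟩
      have := min_le_left 1 (c * g₂ * (8 / (9 * Q)))
      linarith
    · obtain ⟨N₀, hN₀⟩ := hd g hgg₂ ρ hge
      refine ⟨N₀, fun u e hs hu N hN => (hN₀ u e hs hu N hN).trans (ENNReal.ofReal_le_ofReal
        (mul_le_mul_of_nonneg_right ?_ (Nat.cast_nonneg N)))⟩
      have h1 := min_le_right 1 (c * g₂ * (8 / (9 * Q)))
      have hg0 : 0 < g := lt_of_lt_of_le hg₂ hgg₂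
      have h2 : c * g₂ * (8 / (9 * Q)) ≤ c * g * ρ := by gcongr
      linarith
  · refine ⟨ε, hε, g₁, hg₁, 1, one_pos, ?_⟩
    intro g hg ρ hρ hρb hor
    exact hfree g hg ρ hρ hρb ((hor.resolve_right hV).trans (le_max_left _ _))

/-- Part B -/
theorem main_B (hvm : Measurable v) (hv : Integrable v) (hv0 : ∀ x, 0 ≤ v x) {M R : ℝ}
    (hR : 0 < R) (hM : ∀ x, v x ≤ M) (hsupp : ∀ x : E3, R ≤ ‖x‖ → v x = 0)
    {Ω : Set E3} (hΩ : MeasurableSet Ω) (hΩf : volume Ω ≠ ⊤) (hpos : ∀ x ∈ Ω, 0 < v x) {ρ₀ : ℝ}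
    (hρ₀ : 0 < ρ₀) (hb : 1 < ρ₀ * volume.real Ω) {ρ₂ : ℝ}
    (hρ₂ : ρ₂ * (R ^ 3 / Real.sqrt 2) < 1) :
    ∃ g₁ > 0, ∃ c > 0, ∀ g ≥ g₁, ∀ ρ ≥ ρ₀,
      (ρ ≤ ρ₂ ∨ 9 / 8 * (M * (R ^ 3 / Real.sqrt 2)) < ∫ x, v x) →
      ∃ N₀ : ℕ, ∀ (u : E3 → ℝ) (e : ℝ),
      IsSimpleSolution (fun x => g * v x) ρ u e → (∀ᵐ x, u x ≤ 1) → ∀ N ≥ N₀,
      groundEnergy N ((N / ρ) ^ (1 / 3 : ℝ))
        (periodize ((N / ρ) ^ (1 / 3 : ℝ)) (pot fun x => g * v x)) ≤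
        ENNReal.ofReal ((e - c * g * ρ) * N) := by
  have hρm := rho_max hR hρ₂
  have hQ : 0 < R ^ 3 / Real.sqrt 2 := by positivity
  obtain ⟨E₁, hE₁, hup⟩ := upper_free hR hsupp hM hv0 hρm
  obtain ⟨c₁, hc₁, hbath⟩ := P76h.e_bath hvm hv hv0 hΩ hΩf hpos hρ₀ hb
  set Q := R ^ 3 / Real.sqrt 2 with hQd
  have hfree : ∀ g ≥ 2 * E₁ / (c₁ * ρ₀), ∀ ρ ≥ ρ₀,
      ρ ≤ max ρ₂ (8 / (9 * Q)) → ∃ N₀ : ℕ, ∀ (u : E3 → ℝ) (e : ℝ),
      IsSimpleSolution (fun x => g * v x) ρ u e → (∀ᵐ x, u x ≤ 1) → ∀ N ≥ N₀,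
      groundEnergy N ((N / ρ) ^ (1 / 3 : ℝ))
        (periodize ((N / ρ) ^ (1 / 3 : ℝ)) (pot fun x => g * v x)) ≤
        ENNReal.ofReal ((e - c₁ / 2 * g * ρ) * N) := by
    intro g hg ρ hρ hρρ
    have hg0 : 0 < g := lt_of_lt_of_le (by positivity) hg
    have hρ0 : 0 < ρ := lt_of_lt_of_le hρ₀ hρ
    obtain ⟨N₀, hN₀⟩ := hup g hg0 ρ hρ0 hρρ
    refine ⟨N₀, fun u e hs hu N hN => (hN₀ N hN).trans (ENNReal.ofReal_le_ofReal
      (mul_le_mul_of_nonneg_right ?_ (Nat.cast_nonneg N)))⟩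
    have h1 := hbath g hg0 ρ hρ u e hs hu
    have h2 : 2 * E₁ ≤ c₁ * g * ρ := by
      rw [ge_iff_le, div_le_iff₀ (by positivity)] at hg
      calc 2 * E₁ ≤ g * (c₁ * ρ₀) := hg
        _ ≤ g * (c₁ * ρ) := by gcongr
        _ = c₁ * g * ρ := by ring
    linarith
  by_cases hV : 9 / 8 * (M * Q) < ∫ x, v x
  · obtain ⟨g₂, hg₂, c, hc, hd⟩ := upper_dense hv hv0 hR hM hsupp
      (show 0 < 8 / (9 * Q) by positivity) hV (dense_const hQ hV)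
    refine ⟨max (2 * E₁ / (c₁ * ρ₀)) g₂, by positivity, min (c₁ / 2) c, by positivity, ?_⟩
    intro g hg ρ hρ _
    have hgg₁ : 2 * E₁ / (c₁ * ρ₀) ≤ g := (le_max_left _ _).trans hg
    have hgg₂ : g₂ ≤ g := (le_max_right _ _).trans hg
    have hg0 : 0 < g := lt_of_lt_of_le hg₂ hgg₂
    have hρ0 : 0 < ρ := lt_of_lt_of_le hρ₀ hρ
    rcases le_total ρ (8 / (9 * Q)) with hle | hge
    · obtain ⟨N₀, hN₀⟩ := hfree g hgg₁ ρ hρ (hle.trans (le_max_right _ _))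
      refine ⟨N₀, fun u e hs hu N hN => (hN₀ u e hs hu N hN).trans (ENNReal.ofReal_le_ofReal
        (mul_le_mul_of_nonneg_right ?_ (Nat.cast_nonneg N)))⟩
      have : min (c₁ / 2) c * g * ρ ≤ c₁ / 2 * g * ρ := by
        gcongr
        exact min_le_left _ _
      linarith
    · obtain ⟨N₀, hN₀⟩ := hd g hgg₂ ρ hge
      refine ⟨N₀, fun u e hs hu N hN => (hN₀ u e hs hu N hN).trans (ENNReal.ofReal_le_ofReal
        (mul_le_mul_of_nonneg_right ?_ (Nat.cast_nonneg N)))⟩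
      have : min (c₁ / 2) c * g * ρ ≤ c * g * ρ := by
        gcongr
        exact min_le_right _ _
      linarith
  · refine ⟨2 * E₁ / (c₁ * ρ₀), by positivity, c₁ / 2, by positivity, ?_⟩
    intro g hg ρ hρ hor
    exact hfree g hg ρ hρ ((hor.resolve_right hV).trans (le_max_left _ _))

end Pool.Agent.P76f
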