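import Pool.Agent.Lib.P76b.Cluster

/-! # P76f.ClusterS: energy of the trial function with particles at the sites of a set `S` -/

open MeasureTheory Filter Topology
open scoped ENNReal NNReal BigOperators ContDiff

namespace Pool.Agent.P76f

open Pool.Agent.P76s Pool.Agent.P76b

variable {N m : ℕ} {L : ℝ} {φ : ℝ → ℝ} {t₀ : ℝ}

theorem orb_subset {S : Finset (Fin 3 → Fin m)} {a α : Fin N → Fin 3 → Fin m}
    (ha : ∀ i, a i ∈ S) (hα : α ∈ orb a) (i : Fin N) : α i ∈ S := by
  unfold orb at hα
  obtain ⟨σ, -, rfl⟩ := Finset.mem_image.1 hα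
  exact ha (σ i)

theorem cluster_upper_S (h : SiteData m L φ t₀) {A D M : ℝ} (hA0 : 0 < A)
    (hA : ∫ t in Set.Ico (0:ℝ) L, φ t ^ 2 = A)
    (hD : ∫ t in Set.Ico (0:ℝ) L, (deriv φ t) ^ 2 = D)
    (hM : 0 ≤ M) {W : (Fin 3 → ℝ) → ℝ≥0∞} {S : Finset (Fin 3 → Fin m)}
    (hW : ∀ c ∈ S, ∀ c' ∈ S, ∀ y z : Fin 3 → ℝ, (∀ b, site m L φ (c b) (y b) ≠ 0) →
      (∀ b, site m L φ (c' b) (z b) ≠ 0) → W (y - z) ≤ if c = c' then ENNReal.ofReal M else 0)
    (a : Fin N → Fin 3 → Fin m) (ha : ∀ i, a i ∈ S) :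
    groundEnergy N L W ≤
      ENNReal.ofReal (N * (3 / 2 * (D / A)) + M * same a) := by
  have hm : (0 : ℝ) < m := by exact_mod_cast h.m_pos
  have hL := h.L_pos
  have hsm : ∀ j : Fin m, ContDiff ℝ ∞ (site m L φ j) := contDiff_site h
  have hper : ∀ j : Fin m, Function.Periodic (site m L φ j) L := periodic_site h
  have hD0 : 0 ≤ D := by rw [← hD]; exact integral_nonneg fun t => by positivity
  have hA' : 0 < A / m := by positivity
  have hDA : D / m / (A / m) = D / A := by field_simp
  set X : ℝ := ((A / m) ^ 3) ^ N with hX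
  have hX0 : 0 < X := by positivity
  have hmeas : ∀ α : Fin N → Fin 3 → Fin m, Measurable (trc N m L φ α) := fun α =>
    (contDiff_trf fun i b => hsm (α i b)).continuous.measurable
  have hmc : ∀ α : Fin N → Fin 3 → Fin m,
      mass N L (fun x => ((trc N m L φ α x : ℝ) : ℂ)) = ENNReal.ofReal X := fun α =>
    mass_trf hL (fun i b => hsm (α i b)) fun i b => int_site_sq h (α i b) hA
  have hkc : ∀ α : Fin N → Fin 3 → Fin m,
      kinetic N L (fun x => ((trc N m L φ α x : ℝ) : ℂ)) ≤
        ENNReal.ofReal (N * (3 / 2 * (D / A)) * X) := fun α => by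
    have := kinetic_trf hL (fun i b => hsm (α i b)) hA' (fun i b => int_site_sq h (α i b) hA)
      fun i b => int_site_deriv h (α i b) hD
    rwa [hDA] at this
  have hmn : ∀ α : Fin N → Fin 3 → Fin m,
      Measurable fun x => ENNReal.ofReal (‖((trc N m L φ α x : ℝ) : ℂ)‖ ^ 2) := fun α =>
    (((Complex.measurable_ofReal.comp (hmeas α)).norm).pow_const 2).ennreal_ofReal
  have hsq : ∀ x, ENNReal.ofReal (‖((Tr N m L φ a x : ℝ) : ℂ)‖ ^ 2) =
      ∑ α ∈ orb a, ENNReal.ofReal (‖((trc N m L φ α x : ℝ) : ℂ)‖ ^ 2) := fun x => by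
    rw [norm_Tr_sq, ENNReal.ofReal_sum_of_nonneg fun _ _ => by positivity]
  -- mass
  have hmass : mass N L (fun x => ((Tr N m L φ a x : ℝ) : ℂ)) =
      (orb a).card * ENNReal.ofReal X := by
    unfold mass
    simp only [hsq]
    rw [lintegral_finset_sum _ fun α _ => hmn α]
    have : ∀ α ∈ orb a, ∫⁻ x in confBox N L, ENNReal.ofReal (‖((trc N m L φ α x : ℝ) : ℂ)‖ ^ 2) =
        ENNReal.ofReal X := fun α _ => hmc α
    rw [Finset.sum_congr rfl this, Finset.sum_const, nsmul_eq_mul]
  -- kinetic energy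
  have hkin : kinetic N L (fun x => ((Tr N m L φ a x : ℝ) : ℂ)) ≤
      (orb a).card * ENNReal.ofReal (N * (3 / 2 * (D / A)) * X) := by
    have hpt : ∀ x : Conf N, ENNReal.ofReal (1 / 2 * ∑ i, ∑ b : Fin 3,
        ‖fderiv ℝ (fun x => ((Tr N m L φ a x : ℝ) : ℂ)) x (Pi.single i (Pi.single b 1))‖ ^ 2) =
        ∑ α ∈ orb a, ENNReal.ofReal (1 / 2 * ∑ i, ∑ b : Fin 3,
          ‖fderiv ℝ (fun x => ((trc N m L φ α x : ℝ) : ℂ)) x
            (Pi.single i (Pi.single b 1))‖ ^ 2) := by
      intro x
      rw [← ENNReal.ofReal_sum_of_nonneg fun _ _ => by positivity]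
      congr 1
      simp only [norm_fderiv_Tr_sq hsm (fun j t hne => site_near_zero h hne)]
      rw [← Finset.mul_sum]
      congr 1
      rw [Finset.sum_comm]
      conv_rhs => rw [Finset.sum_comm]
      rw [Finset.sum_comm]
      refine Finset.sum_congr rfl fun i _ => ?_
      rw [Finset.sum_comm]
    unfold kinetic
    simp only [hpt]
    have hmk : ∀ α : Fin N → Fin 3 → Fin m, Measurable fun x : Conf N =>
        ENNReal.ofReal (1 / 2 * ∑ i, ∑ b : Fin 3,
          ‖fderiv ℝ (fun x => ((trc N m L φ α x : ℝ) : ℂ)) x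
            (Pi.single i (Pi.single b 1))‖ ^ 2) := by
      intro α
      have hc : ContDiff ℝ ∞ (fun x : Conf N => ((trc N m L φ α x : ℝ) : ℂ)) :=
        Complex.ofRealCLM.contDiff.comp (contDiff_trf fun i b => hsm (α i b))
      have hcf : Continuous (fderiv ℝ (fun x : Conf N => ((trc N m L φ α x : ℝ) : ℂ))) :=
        hc.continuous_fderiv (by simp)
      refine (Continuous.measurable ?_).ennreal_ofReal
      refine continuous_const.mul (continuous_finset_sum _ fun i _ =>
        continuous_finset_sum _ fun b _ => ?_)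
      exact ((hcf.clm_apply continuous_const).norm).pow 2
    rw [lintegral_finset_sum _ fun α _ => hmk α]
    refine (Finset.sum_le_sum fun α _ => hkc α).trans ?_
    rw [Finset.sum_const, nsmul_eq_mul]
  -- interaction energy
  have hint : interaction N L W (fun x => ((Tr N m L φ a x : ℝ) : ℂ)) ≤
      (orb a).card * ENNReal.ofReal (M * same a * X) := by
    unfold interaction
    simp only [hsq]
    have h1 : ∀ x : Conf N, (∑ i, ∑ j ∈ Finset.Ioi i, W (x i - x j)) *
        ∑ α ∈ orb a, ENNReal.ofReal (‖((trc N m L φ α x : ℝ) : ℂ)‖ ^ 2) ≤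
        ∑ α ∈ orb a, ENNReal.ofReal (M * same a) *
          ENNReal.ofReal (‖((trc N m L φ α x : ℝ) : ℂ)‖ ^ 2) := by
      intro x
      rw [Finset.mul_sum]
      refine Finset.sum_le_sum fun α hα => ?_
      by_cases h0 : trc N m L φ α x = 0
      · simp [h0]
      · refine mul_le_mul_left ?_ _
        have hne : ∀ i b, site m L φ (α i b) (x i b) ≠ 0 := by
          intro i b hz
          apply h0
          unfold trc trf
          exact Finset.prod_eq_zero (Finset.mem_univ i)
            (Finset.prod_eq_zero (Finset.mem_univ b) hz)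
        have h2 : ∀ i : Fin N, ∀ j ∈ Finset.Ioi i, W (x i - x j) ≤
            ENNReal.ofReal M * (((if α i = α j then 1 else 0 : ℕ) : ℕ) : ℝ≥0∞) := by
          intro i j _
          refine (hW _ (orb_subset ha hα i) _ (orb_subset ha hα j) _ _ (hne i) (hne j)).trans ?_
          split_ifs <;> simp
        refine (Finset.sum_le_sum fun i _ => Finset.sum_le_sum fun j hj => h2 i j hj).trans ?_
        rw [← same_of_mem_orb hα, ENNReal.ofReal_mul hM, ENNReal.ofReal_natCast]
        unfold same
        push_cast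
        simp only [Finset.mul_sum]
        exact le_rfl
    refine (lintegral_mono h1).trans ?_
    rw [lintegral_finset_sum _ fun α _ => (hmn α).const_mul _]
    have h3 : ∀ α ∈ orb a, ∫⁻ x in confBox N L, ENNReal.ofReal (M * same a) *
        ENNReal.ofReal (‖((trc N m L φ α x : ℝ) : ℂ)‖ ^ 2) =
        ENNReal.ofReal (M * same a * X) := by
      intro α _
      rw [lintegral_const_mul _ (hmn α)]
      have := hmc α
      unfold mass at this
      rw [this, ← ENNReal.ofReal_mul (by positivity)]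
    rw [Finset.sum_congr rfl h3, Finset.sum_const, nsmul_eq_mul]
  -- the quotient
  have hcard : ((orb a).card : ℝ≥0∞) ≠ 0 := by
    have := (orb_nonempty a).card_pos
    exact_mod_cast this.ne'
  have hmass0 : mass N L (fun x => ((Tr N m L φ a x : ℝ) : ℂ)) ≠ 0 := by
    rw [hmass]
    exact mul_ne_zero hcard (by simpa using hX0)
  refine (groundEnergy_le (isWave_Tr hsm hper a) hmass0).trans ?_
  rw [hmass]
  refine ENNReal.div_le_of_le_mul ?_
  refine (add_le_add hkin hint).trans (le_of_eq ?_)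
  rw [← mul_add, ← ENNReal.ofReal_add (by positivity) (by positivity),
    mul_left_comm (ENNReal.ofReal (N * (3 / 2 * (D / A)) + M * same a)),
    ← ENNReal.ofReal_mul (by positivity)]
  congr 2
  ring

end Pool.Agent.P76f
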