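import Pool.Agent.Lib.P76b.SiteDefs

/-! # P76f.Defs: the sites of the face-centred cubic lattice -/

open MeasureTheory Filter Topology
open scoped ENNReal NNReal BigOperators ContDiff

namespace Pool.Agent.P76f

open Pool.Agent.P76s Pool.Agent.P76b

/-- the sites whose coordinates have an even sum -/
def fcc (m : ℕ) : Finset (Fin 3 → Fin m) :=
  Finset.univ.filter fun c => 2 ∣ ∑ b, ((c b : Fin m) : ℕ)

end Pool.Agent.P76f
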